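import Pool.Agent.Helper62.LH.StS

/-!
# Project LH, module BLO: `1`-forms as covectors
-/

set_option autoImplicit false

open Set Filter Topology MeasureTheory
open scoped ContDiff ENNReal

noncomputable section

namespace Pool.Agent.Helper28.LH

open Helper62.LH

/-- the covector of a `1`-form -/
def cov {n : ℕ} (a : E n [⋀^Fin 1]→L[ℝ] ℝ) : Dl n :=
  (ContinuousAlternatingMap.ofSubsingleton ℝ (E n) ℝ (0 : Fin 1)).symm a

theorem cov_apply {n : ℕ} (a : E n [⋀^Fin 1]→L[ℝ] ℝ) (w : Fin 1 → E n) : cov a (w 0) = a w := by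
  have h1 : cov a (w 0) = a (fun _ => w 0) := rfl
  rw [h1]
  congr 1
  funext i
  rw [Subsingleton.elim i 0]

theorem hBlo : StBlo := by
  intro n g φ hφ
  have hsm : ContDiff ℝ ∞ (fun x => cov (φ x)) := by
    rw [contDiff_clm_apply_iff]
    intro v
    exact (ContinuousAlternatingMap.apply ℝ (E n) ℝ (fun _ : Fin 1 => v)).contDiff.comp hφ
  have happ : ∀ x v, cov (φ x) v = φ x ![v] := fun x v => cov_apply (φ x) ![v]
  have hdφ : ∀ x, DifferentiableAt ℝ φ x := fun x =>
    (hφ.differentiable (by simp)).differentiableAt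
  have hdθ : ∀ x, DifferentiableAt ℝ (fun x => cov (φ x)) x := fun x =>
    (hsm.differentiable (by simp)).differentiableAt
  have hder : ∀ x u v, fderiv ℝ (fun x => cov (φ x)) x u v = fderiv ℝ φ x u ![v] := by
    intro x u v
    have h1 := ((ContinuousLinearMap.apply ℝ ℝ v).hasFDerivAt.comp x (hdθ x).hasFDerivAt)
    have h2 := ((ContinuousAlternatingMap.apply ℝ (E n) ℝ ![v]).hasFDerivAt.comp x
      (hdφ x).hasFDerivAt)
    have h3 : (fun y => (ContinuousLinearMap.apply ℝ ℝ v) (cov (φ y))) =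
        fun y => (ContinuousAlternatingMap.apply ℝ (E n) ℝ ![v]) (φ y) := by
      funext y
      exact happ y v
    have h4 : HasFDerivAt (fun y => (ContinuousAlternatingMap.apply ℝ (E n) ℝ ![v]) (φ y))
        ((ContinuousLinearMap.apply ℝ ℝ v).comp (fderiv ℝ (fun x => cov (φ x)) x)) x := by
      rw [← h3]; exact h1
    have h5 := h4.unique h2
    exact congrArg (fun L : E n →L[ℝ] ℝ => L u) h5
  refine ⟨fun x => cov (φ x), hsm, happ, ?_, ?_⟩
  · intro hcl x u v
    have h1 : extDeriv φ x ![u, v] = 0 := by rw [hcl x]; rfl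
    unfold extDeriv at h1
    rw [ContinuousAlternatingMap.alternatizeUncurryFin_apply, Fin.sum_univ_two] at h1
    have e0 : Fin.removeNth (0 : Fin 2) ![u, v] = ![v] := by
      funext i; fin_cases i; rfl
    have e1 : Fin.removeNth (1 : Fin 2) ![u, v] = ![u] := by
      funext i; fin_cases i; rfl
    rw [e0, e1] at h1
    unfold dd
    rw [hder, hder]
    simpa [sub_eq_add_neg] using h1
  · intro x
    unfold nsq ip trg
    rw [Nat.factorial_one, Nat.cast_one, div_one]
    refine Fintype.sum_equiv (Equiv.funUnique (Fin 1) (Fin n)) _ _ fun I => ?_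
    refine Fintype.sum_equiv (Equiv.funUnique (Fin 1) (Fin n)) _ _ fun J => ?_
    rw [Fin.prod_univ_one]
    rw [← cov_apply (φ x) (fun a => ee (I a)), ← cov_apply (φ x) (fun a => ee (J a))]
    rfl

end Pool.Agent.Helper28.LH
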