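import Pool.Agent.Helper62.LH.StG

/-!
# Project LH, module MG: metric geodesics exist
-/

set_option autoImplicit false

open Set Filter Topology MeasureTheory
open scoped ContDiff ENNReal

noncomputable section

namespace Pool.Agent.Helper28.LH

open Helper62.LH

/-- the speed of a `C¹` curve is continuous -/
theorem speed_cont {n : ℕ} {g : E n → Bl n} (hg : IsMet g) {c : ℝ → E n} (hc : ContDiff ℝ 1 c) :
    Continuous (fun t => nr g (c t) (deriv c t)) := by
  have h1 : Continuous g := hg.smooth.continuous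
  have h2 : Continuous c := hc.continuous
  have h3 : Continuous (deriv c) := hc.continuous_deriv le_rfl
  unfold nr
  exact (((h1.comp h2).clm_apply h3).clm_apply h3).sqrt

/-- reparametrisation of a `C¹` curve by arc length -/
theorem reparam {n : ℕ} {g : E n → Bl n} (hg : IsMet g) (hMet : StMet) {x y : E n} {η : ℝ}
    (hη : 0 < η) : ∃ c : Icc (0 : ℝ) 1 → E n, c 0 = x ∧ c 1 = y ∧
      (∀ s, dg g x (c s) ≤ dg g x y + η) ∧
      ∀ s t, dg g (c s) (c t) ≤ |(s : ℝ) - t| * (dg g x y + η) := by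
  obtain ⟨hM1, hM2, hM3, hM4, hM5, hM6⟩ := hMet n g hg
  obtain ⟨γ, hγ, h0, h1, hl⟩ := hM2 x y η hη
  have hcont := speed_cont hg hγ
  set f : ℝ → ℝ := fun t => nr g (γ t) (deriv γ t) with hf
  have hfn : ∀ t, 0 ≤ f t := fun t => Real.sqrt_nonneg _
  have hii : ∀ a b : ℝ, IntervalIntegrable f volume a b := fun a b => hcont.intervalIntegrable a b
  set φ : ℝ → ℝ := fun T => ∫ t in (0 : ℝ)..T, f t with hφ
  have hφc : Continuous φ := intervalIntegral.continuous_primitive hii 0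
  have hφ0 : φ 0 = 0 := intervalIntegral.integral_same
  set l : ℝ := φ 1 with hlden
  have hlen : len g γ = l := rfl
  have hl0 : 0 ≤ l := intervalIntegral.integral_nonneg zero_le_one fun t _ => hfn t
  rw [hlen] at hl
  have hdiff : ∀ a b : ℝ, ∫ t in a..b, f t = φ b - φ a := by
    intro a b
    rw [hφ]
    simp only
    rw [intervalIntegral.integral_interval_sub_left (hii 0 b) (hii 0 a)]
  have hex : ∀ s : Icc (0 : ℝ) 1, ∃ T ∈ Icc (0 : ℝ) 1, φ T = s * l ∧ (s = 0 → T = 0) ∧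
      (s = 1 → T = 1) := by
    intro s
    by_cases hs0 : s = 0
    · refine ⟨0, ⟨le_rfl, zero_le_one⟩, ?_, fun _ => rfl, fun h => ?_⟩
      · rw [hφ0, hs0]; simp
      · rw [hs0] at h; exact absurd h zero_ne_one
    by_cases hs1 : s = 1
    · refine ⟨1, ⟨zero_le_one, le_rfl⟩, ?_, fun h => absurd h hs0, fun _ => rfl⟩
      rw [hs1]; simp [hlden]
    have hmem : (s : ℝ) * l ∈ Icc (φ 0) (φ 1) := by
      rw [hφ0]
      exact ⟨mul_nonneg s.2.1 hl0, mul_le_of_le_one_left hl0 s.2.2⟩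
    obtain ⟨T, hT, hT'⟩ := intermediate_value_Icc (zero_le_one' ℝ) hφc.continuousOn hmem
    exact ⟨T, hT, hT', fun h => absurd h hs0, fun h => absurd h hs1⟩
  choose T hT hTl hT0 hT1 using hex
  have key : ∀ s t : Icc (0 : ℝ) 1, dg g (γ (T s)) (γ (T t)) ≤ |(s : ℝ) - t| * l := by
    have aux : ∀ s t : Icc (0 : ℝ) 1, T s ≤ T t →
        dg g (γ (T s)) (γ (T t)) ≤ |(s : ℝ) - t| * l := by
      intro s t hst
      have h2 := hM1 γ hγ (T s) (T t) hst
      refine h2.trans ?_
      have h3 : ∫ τ in (T s)..(T t), nr g (γ τ) (deriv γ τ) = φ (T t) - φ (T s) := hdiff _ _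
      rw [h3, hTl, hTl, ← sub_mul]
      refine mul_le_mul_of_nonneg_right ?_ hl0
      rw [abs_sub_comm]
      exact le_abs_self _
    intro s t
    rcases le_total (T s) (T t) with h | h
    · exact aux s t h
    · rw [hM5, abs_sub_comm]
      exact aux t s h
  refine ⟨fun s => γ (T s), ?_, ?_, ?_, ?_⟩
  · show γ (T 0) = x
    rw [hT0 0 rfl, h0]
  · show γ (T 1) = y
    rw [hT1 1 rfl, h1]
  · intro s
    have h2 := hM1 γ hγ 0 (T s) (hT s).1
    rw [h0] at h2
    refine h2.trans ?_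
    have h3 : ∫ τ in (0 : ℝ)..(T s), nr g (γ τ) (deriv γ τ) = φ (T s) := rfl
    rw [h3, hTl]
    exact (mul_le_of_le_one_left hl0 s.2.2).trans hl.le
  · intro s t
    exact (key s t).trans (mul_le_mul_of_nonneg_left hl.le (abs_nonneg _))

theorem hMg (hMet : StMet) (hDlc : StDlc) (hHr : StHr) : StMg := by
  intro n g hg hcpl x y
  obtain ⟨hM1, hM2, hM3, hM4, hM5, hM6⟩ := hMet n g hg
  obtain ⟨-, -, hcont⟩ := hDlc n g hg
  set L : ℝ := dg g x y with hL
  set B : Set (E n) := {z | dg g x z ≤ L + 1} with hB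
  have hBc : IsCompact B := hHr n g hg hcpl x (L + 1)
  let K : ℕ → Set (Icc (0 : ℝ) 1 → E n) := fun m =>
    {c | (∀ s, c s ∈ B) ∧ c 0 = x ∧ c 1 = y ∧
      ∀ s t, dg g (c s) (c t) ≤ |(s : ℝ) - t| * (L + 1 / ((m : ℝ) + 1))}
  have hKcl : ∀ m, IsClosed (K m) := by
    intro m
    have e : K m = (⋂ s, {c : Icc (0 : ℝ) 1 → E n | c s ∈ B}) ∩ ({c | c 0 = x} ∩ ({c | c 1 = y} ∩
        ⋂ s, ⋂ t, {c | dg g (c s) (c t) ≤ |(s : ℝ) - t| * (L + 1 / ((m : ℝ) + 1))})) := by
      ext c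
      simp only [K, mem_setOf_eq, mem_inter_iff, mem_iInter]
    rw [e]
    refine (isClosed_iInter fun s => hBc.isClosed.preimage (continuous_apply s)).inter
      ((isClosed_eq (continuous_apply _) continuous_const).inter
        ((isClosed_eq (continuous_apply _) continuous_const).inter
          (isClosed_iInter fun s => isClosed_iInter fun t => isClosed_le ?_ continuous_const)))
    have hp : Continuous (fun c : Icc (0 : ℝ) 1 → E n => (c s, c t)) :=
      (continuous_apply s).prodMk (continuous_apply t)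
    exact hcont.comp hp
  have hK0 : IsCompact (K 0) := by
    refine IsCompact.of_isClosed_subset (isCompact_univ_pi fun _ : Icc (0 : ℝ) 1 => hBc) (hKcl 0) ?_
    intro c hc s _
    exact hc.1 s
  have hne : ∀ m, (K m).Nonempty := by
    intro m
    have hm : (0 : ℝ) < 1 / ((m : ℝ) + 1) := by positivity
    have hm1 : 1 / ((m : ℝ) + 1) ≤ 1 := by
      rw [div_le_one (by positivity)]
      have : (0 : ℝ) ≤ m := Nat.cast_nonneg m
      linarith
    obtain ⟨c, h0, h1, h2, h3⟩ := reparam hg hMet (x := x) (y := y) hm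
    refine ⟨c, fun s => ?_, h0, h1, h3⟩
    have := h2 s
    show dg g x (c s) ≤ L + 1
    linarith
  have hmono : ∀ m, K (m + 1) ⊆ K m := by
    intro m c hc
    refine ⟨hc.1, hc.2.1, hc.2.2.1, fun s t => (hc.2.2.2 s t).trans ?_⟩
    refine mul_le_mul_of_nonneg_left ?_ (abs_nonneg _)
    have : 1 / (((m + 1 : ℕ) : ℝ) + 1) ≤ 1 / ((m : ℝ) + 1) := by
      apply one_div_le_one_div_of_le (by positivity)
      push_cast
      linarith
    linarith
  obtain ⟨c, hc⟩ := IsCompact.nonempty_iInter_of_sequence_nonempty_isCompact_isClosed K hmono hne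
    hK0 hKcl
  rw [mem_iInter] at hc
  have h0 : c 0 = x := (hc 0).2.1
  have h1 : c 1 = y := (hc 0).2.2.1
  have hle : ∀ s t, dg g (c s) (c t) ≤ |(s : ℝ) - t| * L := by
    intro s t
    have hlim : Tendsto (fun m : ℕ => |(s : ℝ) - t| * (L + 1 / ((m : ℝ) + 1))) atTop
        (𝓝 (|(s : ℝ) - t| * (L + 0))) :=
      (tendsto_one_div_add_atTop_nhds_zero_nat.const_add L).const_mul _
    rw [add_zero] at hlim
    exact ge_of_tendsto' hlim fun m => (hc m).2.2.2 s t
  have hL0 : 0 ≤ L := hM3 x y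
  have hge : ∀ s t : Icc (0 : ℝ) 1, (s : ℝ) ≤ t → |(s : ℝ) - t| * L ≤ dg g (c s) (c t) := by
    intro s t hst
    have e1 := hle 0 s
    have e2 := hle t 1
    rw [h0] at e1
    rw [h1] at e2
    have e3 := hM6 x (c s) y
    have e4 := hM6 (c s) (c t) y
    have a1 : |((0 : Icc (0 : ℝ) 1) : ℝ) - s| = s := by
      rw [Icc.coe_zero, zero_sub, abs_neg, abs_of_nonneg s.2.1]
    have a2 : |(t : ℝ) - ((1 : Icc (0 : ℝ) 1) : ℝ)| = 1 - t := by
      rw [Icc.coe_one, abs_sub_comm, abs_of_nonneg (sub_nonneg.2 t.2.2)]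
    have a3 : |(s : ℝ) - t| = t - s := by
      rw [abs_sub_comm, abs_of_nonneg (sub_nonneg.2 hst)]
    rw [a1] at e1
    rw [a2] at e2
    rw [a3]
    rw [← hL] at e3
    nlinarith
  refine ⟨fun t => c (projIcc 0 1 zero_le_one t), ?_, ?_, ?_⟩
  · show c (projIcc 0 1 zero_le_one 0) = x
    rw [projIcc_left]; exact h0
  · show c (projIcc 0 1 zero_le_one 1) = y
    rw [projIcc_right]; exact h1
  · intro s hs t ht
    show dg g (c (projIcc 0 1 zero_le_one s)) (c (projIcc 0 1 zero_le_one t)) = |s - t| * L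
    rw [projIcc_of_mem zero_le_one hs, projIcc_of_mem zero_le_one ht]
    refine le_antisymm (hle ⟨s, hs⟩ ⟨t, ht⟩) ?_
    rcases le_total s t with h | h
    · exact hge ⟨s, hs⟩ ⟨t, ht⟩ h
    · rw [hM5, abs_sub_comm]
      exact hge ⟨t, ht⟩ ⟨s, hs⟩ h

end Pool.Agent.Helper28.LH
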