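import Pool.Agent.Helper62.LH.StV

/-!
# Project LH, module SGA: segment inequality with one end point fixed
-/

set_option autoImplicit false

open Set Filter Topology MeasureTheory
open scoped ContDiff ENNReal

noncomputable section

namespace Pool.Agent.Helper28.LH

open Helper62.LH

/-- the estimate for the sets where the supremum is large -/
theorem sga_level {n : ℕ} {g : E n → Bl n} {Γ : E n → Bm n} (hg : IsMet g) (hΓ : IsChr g Γ)
    (hc : Cpl g) (hs : Sec g Γ) (hMet : StMet) (hDlc : StDlc) (hNc : StNc) (hVol : StVol)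
    {h : E n → ℝ} {x : E n} {t : ℝ} (ht : t ∈ Icc (1 / 2 : ℝ) 1) {D : Set (E n)}
    (hD : ∀ y ∈ D, Gt g t x y ⊆ D) {s : ℝ} :
    mg g {y | y ∈ D ∧ ENNReal.ofReal s < HS g h t x y} ≤
      2 ^ n * mg g {y | y ∈ D ∧ s < h y} := by
  classical
  obtain ⟨-, -, hM3, -, -, -⟩ := hMet n g hg
  obtain ⟨-, hD2, -⟩ := hDlc n g hg
  set A : Set (E n) := {y | y ∈ D ∧ ENNReal.ofReal s < HS g h t x y} with hA
  have hex : ∀ y : E n, ∃ z : E n, y ∈ A → z ∈ Gt g t x y ∧ s < h z := by
    intro y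
    by_cases hy : y ∈ A
    · have h1 := hy.2
      unfold HS at h1
      obtain ⟨z, hz⟩ := lt_iSup_iff.1 h1
      obtain ⟨hz1, hz2⟩ := lt_iSup_iff.1 hz
      refine ⟨z, fun _ => ⟨hz1, ?_⟩⟩
      by_contra hcon
      exact absurd (ENNReal.ofReal_le_ofReal (not_lt.1 hcon)) (not_le.2 hz2)
    · exact ⟨0, fun h => absurd h hy⟩
  choose zf hzf using hex
  have ht' : t ∈ Icc (0 : ℝ) 1 := ⟨by linarith [ht.1], ht.2⟩
  have hlip : ∀ y ∈ A, ∀ y' ∈ A, dg g y y' ≤ 2 * dg g (zf y) (zf y') := by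
    intro y hy y' hy'
    have h1 := hNc n g Γ hg hΓ hc hs x y y' (zf y) (zf y') t ht' (hzf y hy).1 (hzf y' hy').1
    have h2 := hM3 y y'
    nlinarith [ht.1]
  have hinj : InjOn zf A := by
    intro y hy y' hy' he
    have h1 := hlip y hy y' hy'
    rw [he] at h1
    have h2 : dg g (zf y') (zf y') = 0 := (hMet n g hg).2.2.2.1 _
    rw [h2, mul_zero] at h1
    exact hD2 y y' (le_antisymm h1 (hM3 y y'))
  have hleft : LeftInvOn (Function.invFunOn zf A) zf A := hinj.leftInvOn_invFunOn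
  have himg : Function.invFunOn zf A '' (zf '' A) = A := by
    rw [image_image]
    refine Subset.antisymm ?_ ?_
    · rintro _ ⟨y, hy, rfl⟩
      show Function.invFunOn zf A (zf y) ∈ A
      rw [hleft hy]; exact hy
    · intro y hy
      exact ⟨y, hy, hleft hy⟩
  have hv := hVol n g hg (zf '' A) (Function.invFunOn zf A) 2 two_pos (by
    rintro _ ⟨y, hy, rfl⟩ _ ⟨y', hy', rfl⟩
    rw [hleft hy, hleft hy']
    exact hlip y hy y' hy')
  rw [himg] at hv
  have h2n : ENNReal.ofReal ((2 : ℝ) ^ n) = 2 ^ n := by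
    rw [ENNReal.ofReal_pow two_pos.le, ENNReal.ofReal_ofNat]
  rw [h2n] at hv
  refine hv.trans (mul_le_mul_right (measure_mono ?_) _)
  rintro _ ⟨y, hy, rfl⟩
  exact ⟨hD y hy.1 (hzf y hy).1, (hzf y hy).2⟩

/-- layer cake comparison of two integrals over a set -/
theorem layer {n : ℕ} {μ : Measure (E n)} {F : E n → ℝ≥0∞} {h : E n → ℝ} {C : ℝ≥0∞} (hC : C ≠ ⊤)
    (hF : Measurable F) (hFt : ∀ y, F y ≠ ⊤) (hh : Measurable h) {D : Set (E n)}
    (hlev : ∀ s : ℝ, 0 < s → μ {y | y ∈ D ∧ ENNReal.ofReal s < F y} ≤ C * μ {y | y ∈ D ∧ s < h y}) :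
    ∫⁻ y in D, F y ∂μ ≤ C * ∫⁻ y in D, ENNReal.ofReal (h y) ∂μ := by
  have hFm : Measurable (fun y => (F y).toReal) := hF.ennreal_toReal
  have hGm : Measurable (fun y => max (h y) 0) := hh.max measurable_const
  have e1 : ∫⁻ y in D, F y ∂μ =
      ∫⁻ s in Ioi (0 : ℝ), (μ.restrict D) {y | s < (F y).toReal} := by
    rw [← lintegral_eq_lintegral_meas_lt (μ.restrict D)
      (Eventually.of_forall fun y => ENNReal.toReal_nonneg) hFm.aemeasurable]
    refine lintegral_congr fun y => ?_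
    rw [ENNReal.ofReal_toReal (hFt y)]
  have e2 : ∫⁻ y in D, ENNReal.ofReal (h y) ∂μ =
      ∫⁻ s in Ioi (0 : ℝ), (μ.restrict D) {y | s < max (h y) 0} := by
    have h0 : ∀ y, (0 : ℝ) ≤ (fun y => max (h y) 0) y := fun y => le_max_right (h y) 0
    rw [← lintegral_eq_lintegral_meas_lt (f := fun y => max (h y) 0) (μ.restrict D)
      (Eventually.of_forall h0) hGm.aemeasurable]
    refine lintegral_congr fun y => ?_
    rcases le_total (h y) 0 with hy | hy
    · rw [max_eq_right hy, ENNReal.ofReal_of_nonpos hy, ENNReal.ofReal_zero]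
    · rw [max_eq_left hy]
  rw [e1, e2, ← lintegral_const_mul' _ _ hC]
  refine setLIntegral_mono' measurableSet_Ioi fun s hs0 => ?_
  rw [Measure.restrict_apply (measurableSet_lt measurable_const hFm),
    Measure.restrict_apply (measurableSet_lt measurable_const hGm)]
  refine (measure_mono ?_).trans ((hlev s hs0).trans (mul_le_mul_right (measure_mono ?_) _))
  · rintro y ⟨hy1, hy2⟩
    refine ⟨hy2, ?_⟩
    rw [← ENNReal.ofReal_toReal (hFt y)]
    exact (ENNReal.ofReal_lt_ofReal_iff (lt_trans hs0 hy1)).2 hy1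
  · rintro y ⟨hy1, hy2⟩
    exact ⟨lt_of_lt_of_le hy2 (le_max_left _ _), hy1⟩

theorem comp_meas {n : ℕ} {H : ℝ × E n × E n → ℝ≥0∞} (hm : Measurable H) (t : ℝ) (x : E n) :
    Measurable (fun y => H (t, x, y)) := by
  have hp : Measurable (fun y : E n => ((t, x, y) : ℝ × E n × E n)) :=
    measurable_const.prodMk (measurable_const.prodMk measurable_id)
  exact hm.comp hp

theorem hSga (hMet : StMet) (hDlc : StDlc) (hNc : StNc) (hVol : StVol) (hUsc : StUsc) :
    StSga := by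
  intro n g Γ hg hΓ hc hs h hh x t ht D hDm hD
  obtain ⟨hm, hfin⟩ := hUsc n g hg hc h hh
  have hHSm : Measurable (fun y => HS g h t x y) := comp_meas hm t x
  have h2 : (2 : ℝ≥0∞) ^ n ≠ ⊤ := ENNReal.pow_ne_top ENNReal.ofNat_ne_top
  exact layer h2 hHSm (fun y => hfin t x y) hh.measurable
    (fun s hs0 => sga_level hg hΓ hc hs hMet hDlc hNc hVol ht hD)

end Pool.Agent.Helper28.LH
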